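import Pool.Agent.MP_515557_an.H11.MBasic

/-! From monotone subsets to the inequality of Sverak, by the area formula. -/

set_option autoImplicit false

open MeasureTheory Set Metric Filter Topology
open scoped ENNReal

namespace Pool.Agent.MP_515557_an.H30

open Pool.Agent.MP_515557_an.H11.Mono

theorem cz_add (A B : ℂ →L[ℝ] ℂ) : cz (A + B) = cz A + cz B := by
  simp only [cz, _root_.add_apply]; ring

theorem cw_add (A B : ℂ →L[ℝ] ℂ) : cw (A + B) = cw A + cw B := by
  simp only [cw, _root_.add_apply]; ring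

theorem cz_id (t : ℝ) : cz (t • ContinuousLinearMap.id ℝ ℂ) = t := by
  apply Complex.ext <;> simp [cz]

theorem cw_id (t : ℝ) : cw (t • ContinuousLinearMap.id ℝ ℂ) = 0 := by
  apply Complex.ext <;> simp [cw]

theorem continuous_cz : Continuous cz := by unfold cz; fun_prop

theorem continuous_cw : Continuous cw := by unfold cw; fun_prop

theorem apply_eq (T : ℂ →L[ℝ] ℂ) (h : ℂ) : T h = cz T * h + cw T * (starRingEnd ℂ) h := by
  have h3 : T h = h.re • T 1 + h.im • T Complex.I := by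
    rw [← map_smul, ← map_smul, ← map_add]
    congr 1
    apply Complex.ext <;> simp
  rw [h3]
  apply Complex.ext <;> simp [cz, cw] <;> ring

theorem ip_ge (T : ℂ →L[ℝ] ℂ) (h : ℂ) : ((cz T).re - ‖cw T‖) * ‖h‖ ^ 2 ≤ ip (T h) h := by
  have e : ip (T h) h = (cz T).re * ‖h‖ ^ 2 + ip (cw T * (starRingEnd ℂ) h) h := by
    rw [apply_eq, ← ip_self]
    simp only [ip, Complex.add_re, Complex.add_im, Complex.mul_re, Complex.mul_im]
    ring
  have h1 := abs_ip_le (cw T * (starRingEnd ℂ) h) h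
  rw [norm_mul, Complex.norm_conj] at h1
  have h2 := neg_abs_le (ip (cw T * (starRingEnd ℂ) h) h)
  rw [e]
  nlinarith

theorem det_eq (T : ℂ →L[ℝ] ℂ) : T.det = ‖cz T‖ ^ 2 - ‖cw T‖ ^ 2 := by
  rw [ContinuousLinearMap.det, ← LinearMap.det_toMatrix Complex.basisOneI, Matrix.det_fin_two,
    Complex.sq_norm, Complex.sq_norm, Complex.normSq_apply, Complex.normSq_apply]
  simp [LinearMap.toMatrix_apply, cz, cw]
  ring

theorem det_one_add (T : ℂ →L[ℝ] ℂ) :
    ((1 : ℝ) • ContinuousLinearMap.id ℝ ℂ + T).det = 1 + 2 * (cz T).re + ‖cz T‖ ^ 2 - ‖cw T‖ ^ 2 := by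
  rw [det_eq, cz_add, cw_add, cz_id, cw_id, zero_add, Complex.sq_norm, Complex.sq_norm (cz T),
    Complex.normSq_apply, Complex.normSq_apply]
  simp
  ring

theorem Lf_ge_lin {a b : ℝ} (hb : 0 ≤ b) : 2 * a - 1 ≤ Lf a b := by
  unfold Lf
  split_ifs with h
  · nlinarith [mul_nonneg (by linarith : 0 ≤ 1 - a - b) (by linarith : 0 ≤ 1 - a + b)]
  · exact le_rfl

theorem Lf_ge_sq {a b : ℝ} (hab : a ≤ 1 + b) : a ^ 2 - b ^ 2 ≤ Lf a b := by
  unfold Lf
  split_ifs with h
  · exact le_rfl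
  · nlinarith [mul_nonneg (by linarith : 0 ≤ b - 1 + a) (by linarith : 0 ≤ b + 1 - a)]

theorem Lf_eq_lin {a b : ℝ} (hab : 1 ≤ a + b) : Lf a b = 2 * a - 1 := by
  unfold Lf
  split_ifs with h
  · have : b = 1 - a := by linarith
    rw [this]; ring
  · rfl

theorem continuous_W : Continuous fun A : ℂ →L[ℝ] ℂ => Lf ‖cw A‖ ‖cz A‖ := by
  have h1 := continuous_cz.norm
  have h2 := continuous_cw.norm
  unfold Lf
  refine Continuous.if_le (by fun_prop) (by fun_prop) (by fun_prop) continuous_const fun A h => ?_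
  have : ‖cz A‖ = 1 - ‖cw A‖ := by linarith
  rw [this]; ring

variable {u : ℂ → ℂ}

theorem integrable_comp (hu : ContDiff ℝ 2 u) (hc : HasCompactSupport u) {E : Type}
    [NormedAddCommGroup E] {φ : (ℂ →L[ℝ] ℂ) → E} (hφ : Continuous φ) (h0 : φ 0 = 0) :
    Integrable fun x => φ (fderiv ℝ u x) :=
  (hφ.comp (hu.continuous_fderiv two_ne_zero)).integrable_of_hasCompactSupport
    ((hc.fderiv ℝ).comp_left h0)

theorem integral_fderiv (hu : ContDiff ℝ 2 u) (hc : HasCompactSupport u) (h : ℂ) :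
    ∫ x, fderiv ℝ u x h = 0 := by
  have := integral_smul_fderiv_eq_neg_fderiv_smul_of_integrable (μ := volume)
    (f := fun _ : ℂ => (1 : ℝ)) (g := u) (v := h) (by simp)
    (by simpa using integrable_comp hu hc (φ := fun T => T h) (by fun_prop) rfl)
    (by simpa using hu.continuous.integrable_of_hasCompactSupport hc)
    (fun _ _ => differentiableAt_const _) (fun x _ => hu.differentiable two_ne_zero x)
  simpa using this

theorem integral_lin (hu : ContDiff ℝ 2 u) (hc : HasCompactSupport u) (p q : ℂ) :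
    ∫ x, (p * fderiv ℝ u x 1 + q * fderiv ℝ u x Complex.I).re = 0 := by
  have h1 : Integrable fun x => p * fderiv ℝ u x 1 :=
    integrable_comp hu hc (φ := fun T => p * T 1) (by fun_prop) (by simp)
  have h2 : Integrable fun x => q * fderiv ℝ u x Complex.I :=
    integrable_comp hu hc (φ := fun T => q * T Complex.I) (by fun_prop) (by simp)
  have := Complex.reCLM.integral_comp_comm (h1.add h2)
  simp only [Complex.reCLM_apply, Pi.add_apply] at this
  rw [this, integral_add h1 h2, integral_const_mul, integral_const_mul, integral_fderiv hu hc,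
    integral_fderiv hu hc]
  simp

theorem integral_cz (hu : ContDiff ℝ 2 u) (hc : HasCompactSupport u) :
    ∫ x, (cz (fderiv ℝ u x)).re = 0 := by
  rw [← integral_lin hu hc (1 / 2) (-Complex.I / 2)]
  congr 1
  funext x
  congr 1
  unfold cz
  ring

theorem integral_cw (hu : ContDiff ℝ 2 u) (hc : HasCompactSupport u) (e : ℂ) :
    ∫ x, (e * cw (fderiv ℝ u x)).re = 0 := by
  rw [← integral_lin hu hc (e / 2) (e * Complex.I / 2)]
  congr 1
  funext x
  congr 1
  unfold cw
  ring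

theorem integrable_W (hu : ContDiff ℝ 2 u) (hc : HasCompactSupport u) (A : ℂ →L[ℝ] ℂ) :
    Integrable fun x => Lf ‖cw (A + fderiv ℝ u x)‖ ‖cz (A + fderiv ℝ u x)‖ - Lf ‖cw A‖ ‖cz A‖ :=
  integrable_comp hu hc (φ := fun T => Lf ‖cw (A + T)‖ ‖cz (A + T)‖ - Lf ‖cw A‖ ‖cz A‖)
    ((continuous_W.comp (continuous_const.add continuous_id)).sub continuous_const) (by simp)

theorem case_big (hu : ContDiff ℝ 2 u) (hc : HasCompactSupport u) (A : ℂ →L[ℝ] ℂ)
    (hA : 1 ≤ ‖cw A‖ + ‖cz A‖) :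
    0 ≤ ∫ x, (Lf ‖cw (A + fderiv ℝ u x)‖ ‖cz (A + fderiv ℝ u x)‖ - Lf ‖cw A‖ ‖cz A‖) := by
  obtain ⟨e, he, hew⟩ : ∃ e : ℂ, ‖e‖ ≤ 1 ∧ (e * cw A).re = ‖cw A‖ := by
    obtain ⟨c, hc1, hc2⟩ := Complex.exists_norm_eq_mul_self (cw A)
    exact ⟨c, hc1.le, by rw [← hc2]; simp⟩
  have h0 : ∫ x, 2 * (e * cw (fderiv ℝ u x)).re = 0 := by
    rw [integral_const_mul, integral_cw hu hc, mul_zero]
  rw [← h0]
  refine integral_mono (integrable_comp hu hc (φ := fun T => 2 * (e * cw T).re)
    (by have := continuous_cw; fun_prop) (by simp [cw])) (integrable_W hu hc A) fun x => ?_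
  have h1 := Lf_ge_lin (a := ‖cw (A + fderiv ℝ u x)‖) (norm_nonneg (cz (A + fderiv ℝ u x)))
  have h2 : (e * cw (A + fderiv ℝ u x)).re ≤ ‖cw (A + fderiv ℝ u x)‖ := by
    refine (Complex.re_le_norm _).trans ?_
    rw [norm_mul]
    exact mul_le_of_le_one_left (norm_nonneg _) he
  rw [cw_add, mul_add, Complex.add_re, hew, ← cw_add] at h2
  simp only [Lf_eq_lin hA]
  linarith

theorem hasFDerivAt_field (hu : ContDiff ℝ 2 u) (A : ℂ →L[ℝ] ℂ) (t : ℝ) (x : ℂ) :
    HasFDerivAt (fun x => t • x + (A x + u x))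
      (t • ContinuousLinearMap.id ℝ ℂ + (A + fderiv ℝ u x)) x :=
  ((hasFDerivAt_id x).const_smul t).add
    (A.hasFDerivAt.add (hu.differentiable two_ne_zero x).hasFDerivAt)

theorem data_field (hu : ContDiff ℝ 2 u) (hc : HasCompactSupport u) (A : ℂ →L[ℝ] ℂ) (t : ℝ) :
    ∃ M K, Data (fun x => t • x + (A x + u x))
      (fun x => t + (cz (A + fderiv ℝ u x)).re - ‖cw (A + fderiv ℝ u x)‖) M K := by
  have hd := hu.continuous_fderiv two_ne_zero
  obtain ⟨M, hM⟩ := (hc.fderiv ℝ).exists_bound_of_continuous hd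
  obtain ⟨K, hK⟩ := ContDiff.lipschitzWith_of_hasCompactSupport (hc.fderiv ℝ)
    (hu.fderiv_right (m := 1) (by norm_num)) one_ne_zero
  have hM0 : 0 ≤ M := (norm_nonneg _).trans (hM 0)
  refine ⟨‖t • ContinuousLinearMap.id ℝ ℂ‖ + (‖A‖ + M) + 1, K + 1, by positivity, by positivity,
    fun x => (hasFDerivAt_field hu A t x).differentiableAt, fun x => ?_, fun x y => ?_, ?_,
    fun x h => ?_⟩
  · rw [(hasFDerivAt_field hu A t x).fderiv]
    have h1 := norm_add_le (t • ContinuousLinearMap.id ℝ ℂ) (A + fderiv ℝ u x)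
    have h2 := norm_add_le A (fderiv ℝ u x)
    linarith [hM x]
  · rw [(hasFDerivAt_field hu A t x).fderiv, (hasFDerivAt_field hu A t y).fderiv,
      add_sub_add_left_eq_sub, add_sub_add_left_eq_sub]
    have := hK.norm_sub_le x y
    nlinarith [norm_nonneg (x - y)]
  · have h1 := continuous_cz
    have h2 := continuous_cw
    fun_prop
  · rw [(hasFDerivAt_field hu A t x).fderiv]
    have := ip_ge (t • ContinuousLinearMap.id ℝ ℂ + (A + fderiv ℝ u x)) h
    rw [cz_add, cw_add, cz_id, cw_id, zero_add, Complex.add_re, Complex.ofReal_re] at this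
    exact this

theorem exists_ball (hu : ContDiff ℝ 2 u) (hc : HasCompactSupport u) (T : ℂ →L[ℝ] ℂ)
    (hT : 0 < (cz T).re - ‖cw T‖) :
    ∃ R : ℝ, (∀ x, x ∉ closedBall (0 : ℂ) R → fderiv ℝ u x = 0) ∧
      ∀ x ∈ closedBall (0 : ℂ) R, T x + u x ∈ T '' closedBall (0 : ℂ) R := by
  obtain ⟨U, hU⟩ := hc.exists_bound_of_continuous hu.continuous
  obtain ⟨R, hR⟩ := hc.isCompact.isBounded.subset_closedBall (0 : ℂ)
  have hU0 : 0 ≤ U := (norm_nonneg _).trans (hU 0)
  have key : ∀ h, ((cz T).re - ‖cw T‖) * ‖h‖ ≤ ‖T h‖ := by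
    intro h
    rcases (norm_nonneg h).eq_or_lt with h0 | h0
    · rw [← h0, mul_zero]; exact norm_nonneg _
    · have h1 := ip_ge T h
      have h2 := (le_abs_self _).trans (abs_ip_le (T h) h)
      refine le_of_mul_le_mul_right ?_ h0
      nlinarith
  have hinj : Function.Injective (T : ℂ →ₗ[ℝ] ℂ) := by
    rw [injective_iff_map_eq_zero]
    intro h h0
    have h1 := key h
    have h2 : T h = 0 := h0
    rw [h2, norm_zero] at h1
    refine norm_le_zero_iff.1 ?_
    by_contra hn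
    have := mul_pos hT (not_le.1 hn)
    linarith
  have hsurj : Function.Surjective (T : ℂ →ₗ[ℝ] ℂ) := LinearMap.injective_iff_surjective.1 hinj
  have hq : 0 ≤ U / ((cz T).re - ‖cw T‖) := by positivity
  refine ⟨R + U / ((cz T).re - ‖cw T‖), fun x hx => ?_, fun x hx => ?_⟩
  · refine Function.notMem_support.1 fun h => hx ?_
    exact closedBall_subset_closedBall (by linarith) (hR (support_fderiv_subset ℝ h))
  · by_cases hs : x ∈ tsupport u
    · obtain ⟨y, hy⟩ := hsurj (u x)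
      have hy' : T y = u x := hy
      refine ⟨x + y, ?_, by rw [map_add, hy']⟩
      have h1 := key y
      rw [hy'] at h1
      have h2 : ‖y‖ ≤ U / ((cz T).re - ‖cw T‖) := by
        rw [le_div_iff₀ hT]
        linarith [hU x]
      have h3 := mem_closedBall_zero_iff.1 (hR hs)
      rw [mem_closedBall_zero_iff]
      linarith [norm_add_le x y]
    · exact ⟨x, hx, by rw [image_eq_zero_of_notMem_tsupport hs, add_zero]⟩

theorem case_small (hMC : SMC) (hu : ContDiff ℝ 2 u) (hc : HasCompactSupport u) (A : ℂ →L[ℝ] ℂ)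
    (hA : ‖cw A‖ + ‖cz A‖ < 1) :
    0 ≤ ∫ x, (Lf ‖cw (A + fderiv ℝ u x)‖ ‖cz (A + fderiv ℝ u x)‖ - Lf ‖cw A‖ ‖cz A‖) := by
  set T : ℂ →L[ℝ] ℂ := (1 : ℝ) • ContinuousLinearMap.id ℝ ℂ + A with hT
  have hre := neg_abs_le (cz A).re
  have hre' := Complex.abs_re_le_norm (cz A)
  have hT0 : 0 < (cz T).re - ‖cw T‖ := by
    rw [hT, cz_add, cw_add, cz_id, cw_id, zero_add, Complex.add_re, Complex.ofReal_re]
    linarith
  have hdet : 0 ≤ T.det := by
    rw [det_eq]
    have := Complex.re_le_norm (cz T)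
    nlinarith [norm_nonneg (cw T)]
  obtain ⟨R, hR0, hR⟩ := exists_ball hu hc T hT0
  set B := closedBall (0 : ℂ) R with hB
  have hBc : IsCompact B := isCompact_closedBall _ _
  have hBm : MeasurableSet B := hBc.measurableSet
  have hd := hu.continuous_fderiv two_ne_zero
  have h1 := continuous_cz
  have h2 := continuous_cw
  set V := volume.real B with hV
  have hV0 : 0 ≤ V := measureReal_nonneg
  rw [← setIntegral_eq_integral_of_forall_compl_eq_zero (s := B)
    (fun x hx => by rw [hR0 x hx, add_zero, sub_self])]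
  refine le_of_forall_pos_le_add fun ε hε => ?_
  obtain ⟨k, hk, hkV⟩ : ∃ k : ℝ, 0 < k ∧ k * V ≤ ε / 4 :=
    ⟨ε / 4 / (V + 1), by positivity, by
      rw [div_mul_eq_mul_div, div_le_iff₀ (by positivity)]
      nlinarith⟩
  obtain ⟨M, K, hD⟩ := data_field hu hc A (1 - k)
  obtain ⟨C, hC, hCB, hmono, hl, hint⟩ := hMC _ _ M K R (ε / 4) hD (by positivity)
  have hCm := hC.measurableSet
  have hinj : InjOn (fun x => (1 : ℝ) • x + (A x + u x)) C := by
    intro x hx y hy hxy
    have h3 := hmono x hx y hy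
    have h4 : (1 : ℝ) • x + (A x + u x) = (1 : ℝ) • y + (A y + u y) := hxy
    have h5 : (1 - k) • x + (A x + u x) - ((1 - k) • y + (A y + u y)) = (-k) • (x - y) := by
      rw [sub_smul, sub_smul, smul_sub, neg_smul, neg_smul]
      linear_combination h4
    have h6 : ip ((-k) • (x - y)) (x - y) = -k * ‖x - y‖ ^ 2 := by
      rw [← ip_self]
      simp only [ip, Complex.smul_re, Complex.smul_im, smul_eq_mul]
      ring
    simp only [FF] at h3
    rw [h5, h6] at h3
    have h7 : ‖x - y‖ ^ 2 ≤ 0 := by nlinarith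
    exact sub_eq_zero.1 (norm_eq_zero.1 (pow_eq_zero_iff two_ne_zero |>.1
      (le_antisymm h7 (sq_nonneg _))))
  have harea := integral_image_eq_integral_abs_det_fderiv_smul volume hCm
    (fun x _ => (hasFDerivAt_field hu A 1 x).hasFDerivWithinAt) hinj fun _ => (1 : ℝ)
  simp only [smul_eq_mul, mul_one, integral_const, MeasurableSet.univ, measureReal_restrict_apply,
    univ_inter] at harea
  have hvol : volume.real ((fun x => (1 : ℝ) • x + (A x + u x)) '' C) ≤ T.det * V := by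
    have hs : (fun x => (1 : ℝ) • x + (A x + u x)) '' C ⊆ T '' B := by
      rintro _ ⟨x, hx, rfl⟩
      have := hR x (hCB hx)
      rwa [hT, _root_.add_apply, add_assoc] at this
    refine (measureReal_mono hs (hBc.image T.continuous).measure_lt_top.ne).trans (le_of_eq ?_)
    rw [Measure.real, Measure.addHaar_image_continuousLinearMap, ENNReal.toReal_mul,
      ENNReal.toReal_ofReal (abs_nonneg _)]
    exact congrArg₂ _ (abs_of_nonneg hdet) rfl
  have ci : ∀ {f : ℂ → ℝ}, Continuous f → ∀ {S}, S ⊆ B → IntegrableOn f S := fun hf _ hS =>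
    (hf.continuousOn.integrableOn_compact hBc).mono_set hS
  have cdet : Continuous fun x =>
      ((1 : ℝ) • ContinuousLinearMap.id ℝ ℂ + (A + fderiv ℝ u x)).det :=
    ContinuousLinearMap.continuous_det.comp (by fun_prop)
  have cL : Continuous fun x => Lf ‖cw (A + fderiv ℝ u x)‖ ‖cz (A + fderiv ℝ u x)‖ :=
    continuous_W.comp (by fun_prop)
  have cz' : Continuous fun x => 2 * (cz (A + fderiv ℝ u x)).re + 1 := by fun_prop
  have cl : Continuous fun x =>
      1 - k + (cz (A + fderiv ℝ u x)).re - ‖cw (A + fderiv ℝ u x)‖ := by fun_prop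
  have i1 : (∫ x in C, (2 * (cz (A + fderiv ℝ u x)).re + 1)) - T.det * V ≤
      ∫ x in C, Lf ‖cw (A + fderiv ℝ u x)‖ ‖cz (A + fderiv ℝ u x)‖ := by
    refine le_trans (sub_le_sub_left (harea ▸ hvol) _) ?_
    rw [← integral_sub (ci cz' hCB) (ci cdet.abs hCB)]
    refine setIntegral_mono_on ((ci cz' hCB).sub (ci cdet.abs hCB)) (ci cL hCB) hCm fun x hx => ?_
    have h3 := hl x hx
    have h4 := Complex.re_le_norm (cz (A + fderiv ℝ u x))
    have h5 := Lf_ge_sq (a := ‖cw (A + fderiv ℝ u x)‖) (b := ‖cz (A + fderiv ℝ u x)‖) (by linarith)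
    have h6 := le_abs_self ((1 : ℝ) • ContinuousLinearMap.id ℝ ℂ + (A + fderiv ℝ u x)).det
    rw [det_one_add] at h6 ⊢
    linarith
  have i2 : (∫ x in B \ C, (2 * (cz (A + fderiv ℝ u x)).re + 1)) - ε ≤
      ∫ x in B \ C, Lf ‖cw (A + fderiv ℝ u x)‖ ‖cz (A + fderiv ℝ u x)‖ := by
    have hs : B \ C ⊆ B := sdiff_subset
    have h3 : volume.real (B \ C) ≤ V := measureReal_mono hs hBc.measure_lt_top.ne
    have h4 : ∫ x in B \ C, (2 * (1 - k + (cz (A + fderiv ℝ u x)).re - ‖cw (A + fderiv ℝ u x)‖) +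
        2 * k) ≤ ε := by
      rw [integral_add ((ci cl hs).const_mul 2) (ci continuous_const hs), integral_const_mul,
        setIntegral_const, smul_eq_mul]
      nlinarith
    refine le_trans (sub_le_sub_left h4 _) ?_
    have c3 : Continuous fun x =>
        2 * (1 - k + (cz (A + fderiv ℝ u x)).re - ‖cw (A + fderiv ℝ u x)‖) + 2 * k := by fun_prop
    rw [← integral_sub (ci cz' hs) (ci c3 hs)]
    refine setIntegral_mono_on ((ci cz' hs).sub (ci c3 hs)) (ci cL hs) (hBm.diff hCm) fun x _ => ?_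
    have h5 := Lf_ge_lin (a := ‖cw (A + fderiv ℝ u x)‖) (norm_nonneg (cz (A + fderiv ℝ u x)))
    linarith
  have i3 : ∫ x in B, (2 * (cz (A + fderiv ℝ u x)).re + 1) = (2 * (cz A).re + 1) * V := by
    have h3 : ∫ x in B, (cz (fderiv ℝ u x)).re = 0 := by
      rw [setIntegral_eq_integral_of_forall_compl_eq_zero
        (fun x hx => by rw [hR0 x hx]; simp [cz]), integral_cz hu hc]
    have h4 : ∀ x, 2 * (cz (A + fderiv ℝ u x)).re + 1 =
        2 * (cz (fderiv ℝ u x)).re + (2 * (cz A).re + 1) := fun x => by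
      rw [cz_add, Complex.add_re]; ring
    simp only [h4]
    rw [integral_add ((ci (by fun_prop) subset_rfl).const_mul 2) (ci continuous_const subset_rfl),
      integral_const_mul, h3, setIntegral_const, smul_eq_mul]
    ring
  have i4 := setIntegral_sdiff hCm (ci cz' subset_rfl) hCB
  have i5 := setIntegral_sdiff hCm (ci cL subset_rfl) hCB
  have i6 : Lf ‖cw A‖ ‖cz A‖ = 2 * (cz A).re + 1 - T.det := by
    rw [hT, det_one_add, Lf, if_pos hA.le]
    ring
  rw [integral_sub (ci cL subset_rfl) (ci continuous_const subset_rfl), setIntegral_const,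
    smul_eq_mul, i6]
  linarith

theorem bms (hMC : SMC) : SBMS := fun A _ hu hc =>
  (le_or_gt 1 (‖cw A‖ + ‖cz A‖)).elim (case_big hu hc A) (case_small hMC hu hc A)

end Pool.Agent.MP_515557_an.H30
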